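import Mathlib

/-!
# No class of test spaces characterises UOK
-/

namespace Pool.Agent.Results.MP_82653f_gt.NoTestClassUOK

open Set Topology Filter

universe u

/-- `H ⊆ X` is `C`-closed if its preimage under every continuous map from a member of `C`
is closed. -/
def IsCClosed (C : ∀ Z : Type u, TopologicalSpace Z → Prop) {X : Type u} [TopologicalSpace X]
    (H : Set X) : Prop :=
  ∀ (Z : Type u) [t : TopologicalSpace Z], C Z t → ∀ f : Z → X, Continuous f → IsClosed (f ⁻¹' H)

/-- `X` is `C`-Hausdorff if the diagonal is `C`-closed in `X × X`. -/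
def IsCHausdorff (C : ∀ Z : Type u, TopologicalSpace Z → Prop) (X : Type u) [TopologicalSpace X] :
    Prop :=
  IsCClosed C (diagonal X)

/-- The property UOK. -/
def UOK (X : Type u) [TopologicalSpace X] : Prop :=
  ∀ (L : Type u) [TopologicalSpace L], T2Space L → LocallyCompactSpace L → ¬ CompactSpace L →
    ∀ f : L → X, Continuous f → ∀ g g' : OnePoint L → X, Continuous g → Continuous g' →
      (∀ x : L, g x = f x) → (∀ x : L, g' x = f x) → g = g'

/-! ### Doubling a closed set -/

/-- The space `K` with the points outside `O` doubled. -/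
def Dbl (K : Type u) (O : Set K) : Type u := {z : K × Bool // z.1 ∈ O → z.2 = false}

variable {K : Type u} {O : Set K}

def i0 (O : Set K) (x : K) : Dbl K O := ⟨(x, false), fun _ => rfl⟩

open Classical in
noncomputable def i1 (O : Set K) (x : K) : Dbl K O :=
  if h : x ∈ O then ⟨(x, false), fun _ => rfl⟩ else ⟨(x, true), fun h' => (h h').elim⟩

def pr (z : Dbl K O) : K := z.1.1

noncomputable instance [TopologicalSpace K] : TopologicalSpace (Dbl K O) :=
  TopologicalSpace.coinduced (i0 O) inferInstance ⊔ TopologicalSpace.coinduced (i1 O) inferInstance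

theorem isOpen_iff [TopologicalSpace K] {W : Set (Dbl K O)} :
    IsOpen W ↔ IsOpen (i0 O ⁻¹' W) ∧ IsOpen (i1 O ⁻¹' W) := Iff.rfl

theorem pr_i0 (x : K) : pr (i0 O x) = x := rfl

theorem pr_i1 (x : K) : pr (i1 O x) = x := by
  unfold i1; split_ifs <;> rfl

theorem continuous_i0 [TopologicalSpace K] : Continuous (i0 O) :=
  continuous_def.2 fun _ hW => (isOpen_iff.1 hW).1

theorem continuous_i1 [TopologicalSpace K] : Continuous (i1 O) :=
  continuous_def.2 fun _ hW => (isOpen_iff.1 hW).2

theorem continuous_pr [TopologicalSpace K] : Continuous (pr : Dbl K O → K) := by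
  refine continuous_def.2 fun U hU => isOpen_iff.2 ⟨?_, ?_⟩
  · exact hU
  · have : i1 O ⁻¹' (pr ⁻¹' U) = U := by
      ext x; show pr (i1 O x) ∈ U ↔ x ∈ U; rw [pr_i1]
    rw [this]; exact hU

/-- the two copies -/
def R0 (O : Set K) : Set (Dbl K O) := {z | z.1.2 = false}
def R1 (O : Set K) : Set (Dbl K O) := {z | z.1.1 ∈ O ∨ z.1.2 = true}

theorem i1_of_mem {x : K} (h : x ∈ O) : i1 O x = i0 O x := by
  unfold i1; rw [dif_pos h]; rfl

theorem i1_mem (x : K) : i1 O x ∈ R1 O := by
  by_cases h : x ∈ O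
  · exact Or.inl (by show pr (i1 O x) ∈ O; rw [pr_i1]; exact h)
  · refine Or.inr ?_
    unfold i1; rw [dif_neg h]

theorem i1_mem_R0 {x : K} : i1 O x ∈ R0 O ↔ x ∈ O := by
  by_cases h : x ∈ O
  · simp only [h, iff_true]; rw [i1_of_mem h]; rfl
  · simp only [h, iff_false]
    unfold i1; rw [dif_neg h]
    intro h'
    exact absurd h' (by show ¬ (true = false); simp)

theorem i0_mem_R1 {x : K} : i0 O x ∈ R1 O ↔ x ∈ O := by
  constructor
  · rintro (h | h)
    · exact h
    · exact absurd h (by show ¬ (false = true); simp)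
  · exact Or.inl

theorem isOpen_R0 [TopologicalSpace K] (hO : IsOpen O) : IsOpen (R0 O) := by
  refine isOpen_iff.2 ⟨?_, ?_⟩
  · have : i0 O ⁻¹' (R0 O) = univ := eq_univ_of_forall fun x => rfl
    rw [this]; exact isOpen_univ
  · have : i1 O ⁻¹' (R0 O) = O := by ext x; exact i1_mem_R0
    rw [this]; exact hO

theorem isOpen_R1 [TopologicalSpace K] (hO : IsOpen O) : IsOpen (R1 O) := by
  refine isOpen_iff.2 ⟨?_, ?_⟩
  · have : i0 O ⁻¹' (R1 O) = O := by ext x; exact i0_mem_R1
    rw [this]; exact hO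
  · have : i1 O ⁻¹' (R1 O) = univ := eq_univ_of_forall fun x => i1_mem x
    rw [this]; exact isOpen_univ

theorem eq_i0 {z : Dbl K O} (h : z ∈ R0 O) : z = i0 O (pr z) := by
  obtain ⟨⟨x, b⟩, hz⟩ := z
  have : b = false := h
  subst this
  rfl

theorem eq_i1 {z : Dbl K O} (h : z ∈ R1 O) : z = i1 O (pr z) := by
  obtain ⟨⟨x, b⟩, hz⟩ := z
  by_cases hx : x ∈ O
  · have : b = false := hz hx
    subst this
    show _ = i1 O x
    rw [i1_of_mem hx]; rfl
  · rcases h with h | h
    · exact absurd h hx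
    · have : b = true := h
      subst this
      show _ = i1 O x
      unfold i1; rw [dif_neg hx]

theorem mem_R (z : Dbl K O) : z ∈ R0 O ∨ z ∈ R1 O := by
  obtain ⟨⟨x, b⟩, hz⟩ := z
  cases b
  · exact Or.inl rfl
  · exact Or.inr (Or.inr rfl)

/-- criterion for continuity into the doubled space -/
theorem continuous_to_dbl [TopologicalSpace K] {Z : Type*} [TopologicalSpace Z] {f : Z → Dbl K O}
    (h0 : IsOpen (f ⁻¹' R0 O)) (h1 : IsOpen (f ⁻¹' R1 O)) (hp : Continuous fun z => pr (f z)) :
    Continuous f := by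
  refine continuous_def.2 fun W hW => ?_
  have hW' := isOpen_iff.1 hW
  have : f ⁻¹' W = (f ⁻¹' R0 O ∩ (fun z => pr (f z)) ⁻¹' (i0 O ⁻¹' W)) ∪
      (f ⁻¹' R1 O ∩ (fun z => pr (f z)) ⁻¹' (i1 O ⁻¹' W)) := by
    ext z
    constructor
    · intro hz
      rcases mem_R (f z) with h | h
      · refine Or.inl ⟨h, ?_⟩
        show i0 O (pr (f z)) ∈ W
        rw [← eq_i0 h]; exact hz
      · refine Or.inr ⟨h, ?_⟩
        show i1 O (pr (f z)) ∈ W
        rw [← eq_i1 h]; exact hz
    · rintro (⟨h, hz⟩ | ⟨h, hz⟩)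
      · have hz' : i0 O (pr (f z)) ∈ W := hz
        rw [← eq_i0 h] at hz'; exact hz'
      · have hz' : i1 O (pr (f z)) ∈ W := hz
        rw [← eq_i1 h] at hz'; exact hz'
  rw [this]
  exact (h0.inter (hW'.1.preimage hp)).union (h1.inter (hW'.2.preimage hp))

/-- criterion for the doubled space to be UOK -/
theorem uok_dbl [TopologicalSpace K] [T2Space K] (hO : IsOpen O)
    (hcrit : ∀ (L : Type u) [TopologicalSpace L], T2Space L → LocallyCompactSpace L →
      ¬ CompactSpace L → ∀ h : OnePoint L → K, Continuous h → h OnePoint.infty ∉ O →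
      ∀ N ∈ 𝓝 (OnePoint.infty : OnePoint L), ∃ x : L, (x : OnePoint L) ∈ N ∧ h x ∉ O) :
    UOK (Dbl K O) := by
  intro L _ hT2 hLC hnc f hf g g' hg hg' hgf hgf'
  have : NoncompactSpace L := not_compactSpace_iff.1 hnc
  by_contra hne
  have hpr : (fun z => pr (g z)) = fun z => pr (g' z) := by
    refine Continuous.ext_on (OnePoint.denseRange_coe (X := L)) (continuous_pr.comp hg)
      (continuous_pr.comp hg') ?_
    rintro _ ⟨x, rfl⟩
    simp only [hgf, hgf']
  have hinf : g OnePoint.infty ≠ g' OnePoint.infty := by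
    intro he
    apply hne
    funext z
    induction z using OnePoint.rec with
    | infty => exact he
    | coe x => rw [hgf, hgf']
  have hprinf : pr (g OnePoint.infty) = pr (g' OnePoint.infty) := congrFun hpr _
  -- the two values lie in different copies
  have key : ∀ k k' : OnePoint L → Dbl K O, Continuous k → Continuous k' →
      (∀ x : L, k x = k' x) → k OnePoint.infty ∈ R0 O → k' OnePoint.infty ∈ R1 O →
      pr (k OnePoint.infty) ∉ O → False := by
    intro k k' hk hk' hkk h0 h1 hnot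
    obtain ⟨x, hxN, hx⟩ := hcrit L hT2 hLC hnc (fun z => pr (k z)) (continuous_pr.comp hk) hnot
      (k ⁻¹' R0 O ∩ k' ⁻¹' R1 O)
      ((((isOpen_R0 hO).preimage hk).inter ((isOpen_R1 hO).preimage hk')).mem_nhds ⟨h0, h1⟩)
    apply hx
    have h2 : k x ∈ R0 O := hxN.1
    have h3 : k x ∈ R1 O := by rw [hkk]; exact hxN.2
    rw [eq_i0 h2] at h3
    exact i0_mem_R1.1 h3
  have hnot : pr (g OnePoint.infty) ∉ O := by
    intro hmem
    apply hinf
    have e1 : g OnePoint.infty ∈ R1 O := Or.inl hmem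
    have e2 : g' OnePoint.infty ∈ R1 O := Or.inl (by
      show pr (g' OnePoint.infty) ∈ O
      rw [← hprinf]; exact hmem)
    rw [eq_i1 e1, eq_i1 e2, hprinf]
  rcases mem_R (g OnePoint.infty) with h | h
  · rcases mem_R (g' OnePoint.infty) with h' | h'
    · exact hinf (by rw [eq_i0 h, eq_i0 h', hprinf])
    · exact key g g' hg hg' (fun x => by rw [hgf, hgf']) h h' hnot
  · rcases mem_R (g' OnePoint.infty) with h' | h'
    · exact key g' g hg' hg (fun x => by rw [hgf, hgf']) h' h (by rw [← hprinf]; exact hnot)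
    · exact hinf (by rw [eq_i1 h, eq_i1 h', hprinf])

/-! ### The `G_δ` topology -/

/-- The same set with the `G_δ`-topology. -/
def KD (K : Type u) : Type u := K

def toD (x : K) : KD K := x
def fromD (x : KD K) : K := x

instance [TopologicalSpace K] : TopologicalSpace (KD K) :=
  TopologicalSpace.generateFrom {G : Set (KD K) | ∃ G' : Set K, IsGδ G' ∧ G = fromD ⁻¹' G'}

theorem isOpen_of_isGδ [TopologicalSpace K] {G : Set K} (hG : IsGδ G) :
    IsOpen (fromD ⁻¹' G : Set (KD K)) :=
  TopologicalSpace.isOpen_generateFrom_of_mem ⟨G, hG, rfl⟩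

theorem continuous_toD [TopologicalSpace K] {Z : Type*} [TopologicalSpace Z] {f : Z → K}
    (h : ∀ G : Set K, IsGδ G → IsOpen (f ⁻¹' G)) : Continuous (fun z => (toD (f z) : KD K)) := by
  refine continuous_generateFrom_iff.2 ?_
  rintro _ ⟨G, hG, rfl⟩
  exact h G hG

theorem isOpen_toD [TopologicalSpace K] {U : Set K} (hU : IsOpen U) :
    IsOpen (fromD ⁻¹' U : Set (KD K)) :=
  isOpen_of_isGδ hU.isGδ

instance [TopologicalSpace K] [T2Space K] : T2Space (KD K) := by
  refine ⟨fun x y hxy => ?_⟩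
  obtain ⟨U, V, hU, hV, hx, hy, hd⟩ := t2_separation (show fromD x ≠ fromD y from hxy)
  exact ⟨fromD ⁻¹' U, fromD ⁻¹' V, isOpen_toD hU, isOpen_toD hV, hx, hy, hd.preimage _⟩

theorem finite_of_isCompact [TopologicalSpace K] [T1Space K] {S : Set (KD K)} (hS : IsCompact S) :
    S.Finite := by
  by_contra hinf
  have hinf' : S.Infinite := hinf
  obtain ⟨T, hTS, hT⟩ : ∃ T : Set K, (∀ t ∈ T, toD t ∈ S) ∧ T.Infinite ∧ T.Countable := by
    refine ⟨range (fun n => fromD (hinf'.natEmbedding S n : KD K)), ?_, ?_, countable_range _⟩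
    · rintro _ ⟨n, rfl⟩; exact (hinf'.natEmbedding S n).2
    · exact infinite_range_of_injective (Subtype.val_injective.comp (hinf'.natEmbedding S).injective)
  let G : K → Set (KD K) := fun x => fromD ⁻¹' (T \ {x})ᶜ
  have hG : ∀ x, IsOpen (G x) := by
    intro x
    refine isOpen_of_isGδ ?_
    have h2 : ((T \ {x})ᶜ : Set K) = ⋂ t ∈ T \ {x}, ({t}ᶜ : Set K) := by
      ext y
      simp only [mem_compl_iff, mem_iInter]
      constructor
      · intro h t ht he; exact h (he ▸ ht)
      · intro h hy; exact h y hy rfl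
    rw [h2]
    have h3 : (T \ {x}).Countable := hT.2.mono sdiff_subset
    exact IsGδ.biInter h3 fun t _ => isOpen_compl_singleton.isGδ
  obtain ⟨F, hF⟩ := hS.elim_finite_subcover G hG
    (fun x _ => mem_iUnion.2 ⟨fromD x, fun h => h.2 rfl⟩)
  apply hT.1
  refine F.finite_toSet.subset fun t ht => ?_
  obtain ⟨x, hx, hxt⟩ := mem_iUnion₂.1 (hF (hTS t ht))
  by_contra hcon
  apply hxt
  refine ⟨ht, ?_⟩
  intro he
  have he' : t = x := he
  exact hcon (he' ▸ hx)

/-- `G_δ` doubled point: UOK. -/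
theorem uok_KD [TopologicalSpace K] [T2Space K] (p : K) : UOK (Dbl (KD K) (fromD ⁻¹' {p}ᶜ)) := by
  refine uok_dbl (isOpen_toD isOpen_compl_singleton) ?_
  intro L _ _ _ hnc h hh hinf N hN
  have : NoncompactSpace L := not_compactSpace_iff.1 hnc
  have hfin : (range h).Finite := finite_of_isCompact (isCompact_range hh)
  have hop : h ⁻¹' {h OnePoint.infty} ∈ 𝓝 (OnePoint.infty : OnePoint L) := by
    have h1 : IsClosed (range h \ {h OnePoint.infty}) := (hfin.sdiff).isClosed
    have h2 : h ⁻¹' (range h \ {h OnePoint.infty})ᶜ = h ⁻¹' {h OnePoint.infty} := by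
      ext z
      constructor
      · intro hz
        by_contra hcon
        exact hz ⟨mem_range_self z, hcon⟩
      · intro hz hz'
        exact hz'.2 hz
    rw [← h2]
    refine (h1.isOpen_compl.preimage hh).mem_nhds ?_
    intro h3
    exact h3.2 rfl
  obtain ⟨z, hz, ⟨x, rfl⟩⟩ := mem_closure_iff_nhds.1
    ((OnePoint.denseRange_coe (X := L)) OnePoint.infty) _ (inter_mem hN hop)
  refine ⟨x, hz.1, ?_⟩
  have h4 : h x = h OnePoint.infty := hz.2
  rw [h4]
  exact hinf

/-! ### The extremally disconnected case -/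

/-- no sequence off the zero set of `φ` converges to a point of the zero set -/
theorem no_seq [TopologicalSpace K] [ExtremallyDisconnected K] (φ : K → ℝ) (hφ : Continuous φ)
    (q : K) (hq : φ q = 0) (y : ℕ → K) (hy : ∀ n, 0 < φ (y n)) (hlim : Tendsto y atTop (𝓝 q)) :
    False := by
  have hinv : Tendsto (fun m => (φ (y m))⁻¹) atTop atTop := by
    refine tendsto_inv_nhdsGT_zero.comp ?_
    rw [tendsto_nhdsWithin_iff]
    refine ⟨?_, Eventually.of_forall fun m => hy m⟩
    have := (hφ.tendsto q).comp hlim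
    rwa [hq] at this
  obtain ⟨k, hk, hks⟩ := strictMono_subseq_of_tendsto_atTop hinv
  set s : ℕ → ℝ := (fun m => (φ (y m))⁻¹) ∘ k with hs
  have hstop : Tendsto s atTop atTop := hinv.comp hk.tendsto_atTop
  have hsprop : IsProperMap s := by
    rw [isProperMap_iff_tendsto_cocompact]
    refine ⟨continuous_of_discreteTopology, ?_⟩
    rw [Filter.cocompact_eq_cofinite, Nat.cofinite_eq_atTop]
    exact hstop.mono_right atTop_le_cocompact
  have hE : IsClosed (s '' {m | Even m}) := hsprop.isClosedMap _ (isClosed_discrete _)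
  have hO : IsClosed (s '' {m | ¬ Even m}) := hsprop.isClosedMap _ (isClosed_discrete _)
  have hEO : Disjoint (s '' {m | Even m}) (s '' {m | ¬ Even m}) := by
    rw [Set.disjoint_left]
    rintro _ ⟨m, hm, rfl⟩ ⟨m', hm', he⟩
    have := hks.injective he
    subst this
    exact hm' hm
  obtain ⟨θ, hθE, hθO, hθ01⟩ := exists_continuous_zero_one_of_isClosed hE hO hEO
  -- two disjoint open sets
  have hcont : ContinuousOn (fun z => θ ((φ z)⁻¹)) {z | 0 < φ z} := by
    refine θ.continuous.comp_continuousOn (ContinuousOn.inv₀ hφ.continuousOn fun z hz => ?_)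
    exact ne_of_gt hz
  have hpos : IsOpen {z | 0 < φ z} := isOpen_lt continuous_const hφ
  have hU : IsOpen ({z | 0 < φ z} ∩ (fun z => θ ((φ z)⁻¹)) ⁻¹' Iio (1/2)) :=
    hcont.isOpen_inter_preimage hpos isOpen_Iio
  have hV : IsOpen ({z | 0 < φ z} ∩ (fun z => θ ((φ z)⁻¹)) ⁻¹' Ioi (1/2)) :=
    hcont.isOpen_inter_preimage hpos isOpen_Ioi
  have hUV : Disjoint ({z | 0 < φ z} ∩ (fun z => θ ((φ z)⁻¹)) ⁻¹' Iio (1/2))
      ({z | 0 < φ z} ∩ (fun z => θ ((φ z)⁻¹)) ⁻¹' Ioi (1/2)) := by
    rw [Set.disjoint_left]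
    rintro z ⟨-, hz⟩ ⟨-, hz'⟩
    exact lt_asymm (show θ ((φ z)⁻¹) < 1/2 from hz) hz'
  have hcl := ExtremallyDisconnected.disjoint_closure_of_disjoint_isOpen hUV hU hV
  have hlimk : Tendsto (fun m => y (k m)) atTop (𝓝 q) := hlim.comp hk.tendsto_atTop
  have h2 : Tendsto (fun m : ℕ => 2 * m) atTop atTop :=
    tendsto_atTop_mono (fun m => by simp only [id]; omega) tendsto_id
  have h3 : Tendsto (fun m : ℕ => 2 * m + 1) atTop atTop :=
    tendsto_atTop_mono (fun m => by simp only [id]; omega) tendsto_id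
  have hq1 : q ∈ closure ({z | 0 < φ z} ∩ (fun z => θ ((φ z)⁻¹)) ⁻¹' Iio (1/2)) := by
    refine mem_closure_of_tendsto (hlimk.comp h2) (Eventually.of_forall fun m => ⟨hy _, ?_⟩)
    have : θ (s (2 * m)) = 0 := hθE ⟨2 * m, ⟨m, by ring⟩, rfl⟩
    show θ (s (2 * m)) < 1/2
    rw [this]; norm_num
  have hq2 : q ∈ closure ({z | 0 < φ z} ∩ (fun z => θ ((φ z)⁻¹)) ⁻¹' Ioi (1/2)) := by
    refine mem_closure_of_tendsto (hlimk.comp h3) (Eventually.of_forall fun m => ⟨hy _, ?_⟩)
    have : θ (s (2 * m + 1)) = 1 := hθO ⟨2 * m + 1, by simp, rfl⟩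
    show 1/2 < θ (s (2 * m + 1))
    rw [this]; norm_num
  exact Set.disjoint_left.1 hcl hq1 hq2

/-- doubling the zero set of a continuous function gives a UOK space -/
theorem uok_zero [TopologicalSpace K] [CompactSpace K] [T2Space K] [ExtremallyDisconnected K]
    (φ : K → ℝ) (hφ : Continuous φ) (h0 : ∀ z, 0 ≤ φ z) : UOK (Dbl K {z | 0 < φ z}) := by
  refine uok_dbl (isOpen_lt continuous_const hφ) ?_
  intro L _ _ _ hnc h hh hinf N hN
  have : NoncompactSpace L := not_compactSpace_iff.1 hnc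
  have hq : φ (h OnePoint.infty) = 0 := le_antisymm (not_lt.1 hinf) (h0 _)
  by_contra hcon
  push Not at hcon
  -- a closed neighbourhood of infinity inside `N`
  obtain ⟨N', hN', hN'c, hN'N⟩ := exists_mem_nhds_isClosed_subset hN
  have hx : ∀ n : ℕ, ∃ x : L, (x : OnePoint L) ∈ N' ∧ φ (h x) < 1 / ((n:ℝ) + 1) := by
    intro n
    have hn : (0:ℝ) < 1 / ((n:ℝ) + 1) := by positivity
    have h1 : {z | φ (h z) < 1 / ((n:ℝ) + 1)} ∈ 𝓝 (OnePoint.infty : OnePoint L) :=
      (isOpen_lt (hφ.comp hh) continuous_const).mem_nhds (by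
        show φ (h OnePoint.infty) < _
        rw [hq]; exact hn)
    obtain ⟨z, hz, ⟨x, rfl⟩⟩ := mem_closure_iff_nhds.1
      ((OnePoint.denseRange_coe (X := L)) OnePoint.infty) _ (inter_mem hN' h1)
    exact ⟨x, hz.1, hz.2⟩
  choose x hxN hxφ using hx
  have hpos : ∀ n, 0 < φ (h (x n)) := fun n => hcon (x n) (hN'N (hxN n))
  -- the sequence converges to infinity
  have hlim : Tendsto (fun n => ((x n : L) : OnePoint L)) atTop (𝓝 OnePoint.infty) := by
    rw [tendsto_iff_forall_eventually_mem]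
    intro M hM
    obtain ⟨M', hM'M, hM', hinfM⟩ := mem_nhds_iff.1 hM
    have hK : IsCompact (N' \ M') := (hN'c.sdiff hM').isCompact
    by_cases hKe : (N' \ M').Nonempty
    · obtain ⟨z, hz, hzmin⟩ := hK.exists_isMinOn hKe (hφ.comp hh).continuousOn
      have hzpos : 0 < φ (h z) := by
        induction z using OnePoint.rec with
        | infty => exact absurd hinfM hz.2
        | coe z => exact hcon z (hN'N hz.1)
      obtain ⟨n0, hn0⟩ := exists_nat_one_div_lt hzpos
      filter_upwards [eventually_ge_atTop n0] with n hn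
      apply hM'M
      by_contra hnot
      have h1 : φ (h z) ≤ φ (h (x n)) := hzmin ⟨hxN n, hnot⟩
      have h2 : 1 / ((n:ℝ) + 1) ≤ 1 / ((n0:ℝ) + 1) := by
        apply one_div_le_one_div_of_le (by positivity)
        have : (n0:ℝ) ≤ n := by exact_mod_cast hn
        linarith
      linarith [hxφ n]
    · refine Eventually.of_forall fun n => hM'M ?_
      by_contra hnot
      exact hKe ⟨_, hxN n, hnot⟩
  exact no_seq φ hφ (h OnePoint.infty) hq (fun n => h (x n)) hpos ((hh.tendsto _).comp hlim)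

/-- doubling one nonisolated point of a compact Hausdorff space gives a space which is not UOK -/
theorem not_uok [TopologicalSpace K] [CompactSpace K] [T2Space K] (p : K)
    (hp : ¬ IsOpen ({p} : Set K)) : ¬ UOK (Dbl K {p}ᶜ) := by
  intro hU
  let L : Type u := {x : K // x ≠ p}
  have hopen : IsOpen ({p}ᶜ : Set K) := isOpen_compl_singleton
  have hLC : LocallyCompactSpace L := hopen.locallyCompactSpace
  have hnc : ¬ CompactSpace L := by
    intro hc
    have h1 : IsCompact ({p}ᶜ : Set K) := isCompact_iff_compactSpace.2 hc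
    exact hp (by simpa using h1.isClosed.isOpen_compl)
  have hemb : IsEmbedding (Subtype.val : L → K) := IsEmbedding.subtypeVal
  have hrange : range (Subtype.val : L → K) = {p}ᶜ := by
    rw [Subtype.range_coe_subtype]; rfl
  let e : OnePoint L ≃ₜ K := OnePoint.equivOfIsEmbeddingOfRangeEq p Subtype.val hemb hrange
  have he : ∀ x : L, e x = x.1 := fun x => rfl
  have hei : e OnePoint.infty = p := rfl
  have h2 := hU L inferInstance hLC hnc (fun x => i0 _ (e x))
    (continuous_i0.comp (e.continuous.comp OnePoint.continuous_coe)) (fun z => i0 _ (e z))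
    (fun z => i1 _ (e z)) (continuous_i0.comp e.continuous) (continuous_i1.comp e.continuous)
    (fun x => rfl) (fun x => i1_of_mem (by rw [he]; exact x.2))
  have h3 : i0 {p}ᶜ p = i1 {p}ᶜ p := congrFun h2 OnePoint.infty
  have h4 : i1 {p}ᶜ p ∈ R0 ({p}ᶜ : Set K) := by rw [← h3]; rfl
  exact (i1_mem_R0.1 h4) rfl

theorem main [TopologicalSpace K] [CompactSpace K] [T2Space K] [ExtremallyDisconnected K] (p : K)
    (hp : ¬ IsOpen ({p} : Set K)) (C : ∀ Z : Type u, TopologicalSpace Z → Prop)
    (hC : ∀ (X : Type u) [TopologicalSpace X], IsCHausdorff C X ↔ UOK X) : False := by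
  -- preimages of cozero sets are closed
  have h1 : ∀ (Z : Type u) [t : TopologicalSpace Z], C Z t → ∀ h : Z → K, Continuous h →
      ∀ φ : K → ℝ, Continuous φ → (∀ z, 0 ≤ φ z) → IsClosed (h ⁻¹' {z | 0 < φ z}) := by
    intro Z t hZ h hh φ hφ h0
    have h2 := (hC _).2 (uok_zero φ hφ h0)
    have h3 := h2 Z hZ (fun z => (i0 {z | 0 < φ z} (h z), i1 {z | 0 < φ z} (h z)))
      ((continuous_i0.comp hh).prodMk (continuous_i1.comp hh))
    have h4 : (fun z => (i0 {z | 0 < φ z} (h z), i1 {z | 0 < φ z} (h z))) ⁻¹'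
        (diagonal (Dbl K {z | 0 < φ z})) = h ⁻¹' {z | 0 < φ z} := by
      ext z
      constructor
      · intro hz
        have hz' : i0 {z | 0 < φ z} (h z) = i1 {z | 0 < φ z} (h z) := hz
        have h5 : i1 {z | 0 < φ z} (h z) ∈ R0 {z | 0 < φ z} := by rw [← hz']; rfl
        exact (i1_mem_R0 (O := {z | 0 < φ z}) (x := h z)).1 h5
      · intro hz
        show i0 {z | 0 < φ z} (h z) = i1 {z | 0 < φ z} (h z)
        exact (i1_of_mem (O := {z | 0 < φ z}) (x := h z) hz).symm
    rw [h4] at h3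
    exact h3
  -- preimages of `G_δ` sets are open
  have h2 : ∀ (Z : Type u) [t : TopologicalSpace Z], C Z t → ∀ h : Z → K, Continuous h →
      ∀ G : Set K, IsGδ G → IsOpen (h ⁻¹' G) := by
    intro Z t hZ h hh G hG
    obtain ⟨U, hUo, rfl⟩ := isGδ_iff_eq_iInter_nat.1 hG
    rw [isOpen_iff_mem_nhds]
    intro z hz
    have hz' : ∀ n, h z ∈ U n := fun n => mem_iInter.1 hz n
    have hφ : ∀ n, ∃ f : C(K, ℝ), EqOn f 0 {h z} ∧ EqOn f 1 (U n)ᶜ ∧ ∀ x, f x ∈ Icc (0:ℝ) 1 :=
      fun n => exists_continuous_zero_one_of_isClosed isClosed_singleton (hUo n).isClosed_compl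
        (by rw [disjoint_singleton_left]; exact fun hc => hc (hz' n))
    choose f hf0 hf1 hf01 using hφ
    have h3 : ∀ n, IsOpen (h ⁻¹' {x | 0 < f n x})ᶜ := fun n =>
      (h1 Z hZ h hh (f n) (f n).continuous fun x => (hf01 n x).1).isOpen_compl
    -- combine the functions
    let φ : K → ℝ := fun x => ∑' n, (1/2:ℝ)^n * f n x
    have hbd : ∀ m x, ‖(1/2:ℝ)^m * f m x‖ ≤ (1/2:ℝ)^m := by
      intro m x
      rw [norm_mul, Real.norm_of_nonneg (by positivity), Real.norm_of_nonneg (hf01 m x).1]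
      exact mul_le_of_le_one_right (by positivity) (hf01 m x).2
    have hsz : ∀ x, Summable (fun m => (1/2:ℝ)^m * f m x) := fun x =>
      Summable.of_norm_bounded summable_geometric_two (fun m => hbd m x)
    have hφc : Continuous φ :=
      continuous_tsum (fun m => continuous_const.mul (f m).continuous) summable_geometric_two hbd
    have hφ0 : ∀ x, 0 ≤ φ x := fun x =>
      tsum_nonneg fun m => mul_nonneg (by positivity) (hf01 m x).1
    have h4 : IsOpen (h ⁻¹' {x | 0 < φ x})ᶜ := (h1 Z hZ h hh φ hφc hφ0).isOpen_compl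
    refine Filter.mem_of_superset (h4.mem_nhds ?_) ?_
    · show ¬ (0 < φ (h z))
      have : φ (h z) = 0 := by
        have h5 : ∀ n, f n (h z) = 0 := fun n => hf0 n rfl
        simp [φ, h5]
      rw [this]; exact lt_irrefl _
    · intro w hw
      refine mem_iInter.2 fun n => ?_
      by_contra hcon
      apply hw
      show 0 < φ (h w)
      have h6 : f n (h w) = 1 := hf1 n hcon
      have h7 : (1/2:ℝ)^n * f n (h w) ≤ φ (h w) :=
        (hsz (h w)).le_tsum n fun k _ => mul_nonneg (by positivity) (hf01 k _).1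
      rw [h6] at h7
      have h8 : (0:ℝ) < (1/2)^n * 1 := by positivity
      linarith
  -- a witness that the doubled space is not `C`-Hausdorff
  have h3 : ¬ IsCHausdorff C (Dbl K {p}ᶜ) := fun h => not_uok p hp ((hC _).1 h)
  apply h3
  intro Z t hZ f hf
  have h4 := (hC _).2 (uok_KD (K := K) p)
  let c : Dbl K {p}ᶜ → Dbl (KD K) (fromD ⁻¹' {p}ᶜ) := fun z => ⟨(toD z.1.1, z.1.2), z.2⟩
  have hcinj : Function.Injective c := by
    intro a b hab
    have h5 := congrArg Subtype.val hab
    apply Subtype.ext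
    exact h5
  have hcc : ∀ k : Z → Dbl K {p}ᶜ, Continuous k → Continuous fun z => c (k z) := by
    intro k hk
    have g0 : IsOpen (k ⁻¹' R0 {p}ᶜ) := (isOpen_R0 isOpen_compl_singleton).preimage hk
    have g1 : IsOpen (k ⁻¹' R1 {p}ᶜ) := (isOpen_R1 isOpen_compl_singleton).preimage hk
    have g2 : Continuous (fun z => (toD (pr (k z)) : KD K)) :=
      continuous_toD (h2 Z hZ (fun z => pr (k z)) (continuous_pr.comp hk))
    exact continuous_to_dbl (f := fun z => c (k z)) g0 g1 g2
  have h5 := h4 Z hZ (fun z => (c (f z).1, c (f z).2))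
    ((hcc _ (continuous_fst.comp hf)).prodMk (hcc _ (continuous_snd.comp hf)))
  have h6 : (fun z => (c (f z).1, c (f z).2)) ⁻¹' (diagonal _) = f ⁻¹' (diagonal _) := by
    ext z
    exact ⟨fun h => hcinj h, fun h => congrArg c h⟩
  rw [h6] at h5
  exact h5

/-- There is no class `C` of topological spaces such that a space is `C`-Hausdorff if and only
if it is UOK. -/
theorem result : ¬ ∃ C : ∀ Z : Type u, TopologicalSpace Z → Prop,
    ∀ (X : Type u) [TopologicalSpace X], IsCHausdorff C X ↔ UOK X := by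
  rintro ⟨C, hC⟩
  let α : Type u := ULift.{u} ℕ
  let K : Type u := StoneCech α
  have : ExtremallyDisconnected K := StoneCech.projective.extremallyDisconnected
  have hne : range (stoneCechUnit : α → K) ≠ univ := by
    intro h
    have h1 : IsEmbedding (stoneCechUnit : α → K) := isEmbedding_stoneCechUnit
    have h2 : IsCompact (univ : Set α) := by
      have h3 : IsCompact (range (stoneCechUnit : α → K)) := by rw [h]; exact isCompact_univ
      rw [← image_univ] at h3
      exact (h1.isCompact_iff).2 h3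
    have h4 : (univ : Set α).Finite := h2.finite_of_discrete
    exact Set.infinite_univ h4
  obtain ⟨p, hp⟩ := (ne_univ_iff_exists_notMem _).1 hne
  refine main p (fun hopen => ?_) C hC
  obtain ⟨z, hz, x, rfl⟩ := (denseRange_stoneCechUnit (α := α)).inter_open_nonempty {p} hopen ⟨p, rfl⟩
  exact hp ⟨x, hz⟩

end Pool.Agent.Results.MP_82653f_gt.NoTestClassUOK
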